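import Pool.Agent.ANO5.A2.EqIdx.One

/-!
# Equivariant index: fragmentation (package EQ-APPROX)

* `exists_steps`: `Finset.induction_on t`, for all `δ`: for `insert p t` use the induction
  hypothesis
  with `δ / 2` and then `exists_step` with `δ / 2` (and `c + 1 / 2` instead of `c`).
* `exists_approx_on`: for every compact `M` and `δ`: cover `M` by the interiors of finitely many
  balls
  `closedBall p (ρ p)`, with `closedBall p (2 * ρ p)` small (`Action.exists_small`, `Small.mono`),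
  and
  pass to the saturation by equivariance.
-/

set_option autoImplicit false
set_option linter.unusedSectionVars false

open Set Filter Topology Metric
open Pool.Agent.SmoothDegree Pool.Agent.ANO.Idx

namespace Pool.Agent.ANO5.A2.EqIdx

variable {X E : Type} [MetricSpace X] [ProperSpace X] [NormedAddCommGroup E] [NormedSpace ℝ E]
  [FiniteDimensional ℝ E] [Nontrivial E]
variable {C : Chart X E} {Z : Type} [Group Z] [MulAction Z X]

theorem exists_steps (hZ : Action C Z) {G G₀ : X → X} (hG : Eqv C Z G) (hnd : NdOn C G univ)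
    (hG₀ : Continuous G₀) (he : ∀ (z : Z) (x : X), G₀ (z • x) = z • G₀ x) {c : ℝ}
    (hc : ∀ x, dist (G x) (G₀ x) ≤ c) {L : Set X} (hL : IsCompact L)
    (hLc : ∀ x, dist x (G₀ x) ≤ c + 2 → x ∈ sat Z L) (t : Finset X) (ρ ρ' : X → ℝ)
    (hρ : ∀ p ∈ t, 0 < ρ p ∧ ρ p < ρ' p) (hs : ∀ p ∈ t, Small Z (closedBall p (ρ' p))) {δ : ℝ}
    (hδ : 0 < δ) (hδ1 : δ ≤ 1) :
    ∃ G' : X → X, Eqv C Z G' ∧ NdOn C G' univ ∧
      (∀ x, dist (G' x) (G₀ x) ≤ dist (G x) (G₀ x) + δ) ∧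
      (∀ p ∈ t, ∀ x ∈ closedBall p (ρ p), dist (G' x) (G₀ x) ≤ δ) ∧ tot C Z G' = tot C Z G := by
  classical
  induction t using Finset.induction_on generalizing δ with
  | empty =>
    exact ⟨G, hG, hnd, fun x => by linarith, fun p hp => absurd hp (Finset.notMem_empty p), rfl⟩
  | insert p t _ ih =>
    obtain ⟨G₁, hG₁, hnd₁, h1, h2, h3⟩ := ih (fun q hq => hρ q (Finset.mem_insert_of_mem hq))
      (fun q hq => hs q (Finset.mem_insert_of_mem hq)) (half_pos hδ) (by linarith)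
    have hp : p ∈ insert p t := Finset.mem_insert_self p t
    obtain ⟨G₂, hG₂, hnd₂, h4, h5, h6⟩ := exists_step hZ hG₁ hnd₁ hG₀ he (c := c + 1 / 2)
      (fun x => by linarith [h1 x, hc x]) hL (fun x hx => hLc x (by linarith)) p
      (hρ p hp).1 (hρ p hp).2 (hs p hp) (half_pos hδ) (by linarith)
    refine ⟨G₂, hG₂, hnd₂, fun x => by linarith [h1 x, h4 x], ?_, h6.trans h3⟩
    intro q hq x hx
    rcases Finset.mem_insert.1 hq with rfl | hq
    · linarith [h5 x hx]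
    · linarith [h4 x, h2 q hq x hx]

theorem exists_approx_on (hZ : Action C Z) {G G₀ : X → X} (hG : Eqv C Z G)
    (hnd : NdOn C G univ) (hG₀ : Continuous G₀) (he : ∀ (z : Z) (x : X), G₀ (z • x) = z • G₀ x)
    {c : ℝ} (hc : ∀ x, dist (G x) (G₀ x) ≤ c) {L : Set X} (hL : IsCompact L)
    (hLc : ∀ x, dist x (G₀ x) ≤ c + 2 → x ∈ sat Z L) {M : Set X} (hM : IsCompact M) {δ : ℝ}
    (hδ : 0 < δ) (hδ1 : δ ≤ 1) :
    ∃ G' : X → X, Eqv C Z G' ∧ NdOn C G' univ ∧ (∀ x, dist (G' x) (G₀ x) ≤ c + δ) ∧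
      (∀ x ∈ sat Z M, dist (G' x) (G₀ x) ≤ δ) ∧ tot C Z G' = tot C Z G := by
  choose r hr0 hr using fun p : X => hZ.exists_small p
  obtain ⟨t, -, htM⟩ := hM.elim_nhds_subcover (fun p => closedBall p (r p / 2))
    (fun p _ => closedBall_mem_nhds p (half_pos (hr0 p)))
  obtain ⟨G', hG', hnd', h1, h2, h3⟩ := exists_steps hZ hG hnd hG₀ he hc hL hLc t
    (fun p => r p / 2) r (fun p _ => ⟨half_pos (hr0 p), half_lt_self (hr0 p)⟩)
    (fun p _ => hr p) hδ hδ1
  refine ⟨G', hG', hnd', fun x => by linarith [h1 x, hc x], ?_, h3⟩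
  rintro x ⟨z, hz⟩
  obtain ⟨p, hp, hx⟩ := mem_iUnion₂.1 (htM hz)
  have h4 := h2 p hp (z • x) hx
  rwa [hG'.equi, he, hZ.dist_smul] at h4

end Pool.Agent.ANO5.A2.EqIdx
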