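import Pool.Agent.ANO5.A2.EqIdx.Defs

/-!
# Equivariant index: elementary facts about the chart and the group action (package EQ-BASIC)
-/

set_option autoImplicit false
set_option linter.unusedSectionVars false

open Set Filter Topology Metric
open Pool.Agent.SmoothDegree Pool.Agent.ANO.Idx

namespace Pool.Agent.ANO5.A2.EqIdx

variable {X E : Type} [MetricSpace X] [NormedAddCommGroup E] [NormedSpace ℝ E]

/-! ### The chart -/

theorem Chart.mem_dom (C : Chart X E) (p : X) : C.toE p ∈ C.dom := mem_range_self p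

theorem Chart.toE_ofE (C : Chart X E) {x : E} (hx : x ∈ C.dom) : C.toE (C.ofE x) = x := by
  obtain ⟨p, rfl⟩ := hx
  rw [C.left_inv]

theorem Chart.injective (C : Chart X E) : Function.Injective C.toE :=
  Function.LeftInverse.injective C.left_inv

theorem Chart.isOpen_dom (C : Chart X E) : IsOpen C.dom := C.isOpen

private theorem isOpenMap_toE_Basic (C : Chart X E) : IsOpenMap C.toE := by
  intro U hU
  have h1 : C.toE '' U = range C.toE ∩ C.ofE ⁻¹' U := by
    ext x
    constructor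
    · rintro ⟨p, hp, rfl⟩
      exact ⟨mem_range_self p, by rwa [mem_preimage, C.left_inv]⟩
    · rintro ⟨⟨p, rfl⟩, hp⟩
      rw [mem_preimage, C.left_inv] at hp
      exact ⟨p, hp, rfl⟩
  rw [h1]
  exact C.contOf.isOpen_inter_preimage C.isOpen hU

theorem Chart.isOpenEmbedding (C : Chart X E) : IsOpenEmbedding C.toE :=
  IsOpenEmbedding.of_continuous_injective_isOpenMap C.cont C.injective (isOpenMap_toE_Basic C)

@[simp] theorem Chart.loc_toE (C : Chart X E) (G : X → X) (p : X) :
    C.loc G (C.toE p) = C.toE (G p) := by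
  rw [Chart.loc, C.left_inv]

theorem Chart.disp_toE (C : Chart X E) (G : X → X) (p : X) :
    C.disp G (C.toE p) = C.toE p - C.toE (G p) := by
  rw [Chart.disp, Chart.loc_toE]

theorem Chart.disp_eq_zero (C : Chart X E) {G : X → X} {p : X} :
    C.disp G (C.toE p) = 0 ↔ G p = p := by
  rw [Chart.disp_toE, sub_eq_zero]
  exact ⟨fun h => (C.injective h).symm, fun h => by rw [h]⟩

theorem Chart.loc_mem_dom (C : Chart X E) (G : X → X) (x : E) : C.loc G x ∈ C.dom :=
  C.mem_dom _

theorem Chart.loc_comp (C : Chart X E) (G H : X → X) (x : E) :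
    C.loc (G ∘ H) x = C.loc G (C.loc H x) := by
  rw [Chart.loc, Chart.loc, Chart.loc, C.left_inv]
  rfl

theorem Chart.continuousOn_loc (C : Chart X E) {G : X → X} (hG : Continuous G) :
    ContinuousOn (C.loc G) C.dom :=
  (C.cont.comp hG).comp_continuousOn C.contOf

theorem Chart.continuous_of_loc (C : Chart X E) {G : X → X} (h : ContinuousOn (C.loc G) C.dom) :
    Continuous G := by
  rw [C.isOpenEmbedding.isInducing.continuous_iff]
  have h1 := h.comp_continuous C.cont C.mem_dom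
  refine h1.congr fun p => ?_
  simp

/-- `G = G'` near `q` gives the same statement in the chart. -/
theorem Chart.loc_congr (C : Chart X E) {G G' : X → X} {q : X} (h : G' =ᶠ[𝓝 q] G) :
    C.loc G' =ᶠ[𝓝 (C.toE q)] C.loc G := by
  have h1 : ContinuousAt C.ofE (C.toE q) :=
    C.contOf.continuousAt (C.isOpen.mem_nhds (mem_range_self q))
  have h2 : Tendsto C.ofE (𝓝 (C.toE q)) (𝓝 q) := by
    have := h1.tendsto
    rwa [C.left_inv] at this
  filter_upwards [h2.eventually h] with x hx
  rw [Chart.loc, Chart.loc, hx]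

theorem Chart.disp_congr (C : Chart X E) {G G' : X → X} {q : X} (h : G' =ᶠ[𝓝 q] G) :
    C.disp G' =ᶠ[𝓝 (C.toE q)] C.disp G := by
  filter_upwards [C.loc_congr h] with x hx
  rw [Chart.disp, Chart.disp, hx]

theorem Chart.interior_image (C : Chart X E) (B : Set X) :
    interior (C.toE '' B) = C.toE '' interior B := by
  apply Subset.antisymm
  · intro x hx
    obtain ⟨p, hp, rfl⟩ := interior_subset hx
    refine ⟨p, ?_, rfl⟩
    rw [mem_interior]
    refine ⟨C.toE ⁻¹' interior (C.toE '' B), ?_, isOpen_interior.preimage C.cont, hx⟩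
    intro y hy
    obtain ⟨y', hy', h1⟩ := interior_subset hy
    rwa [← C.injective h1]
  · exact interior_maximal (image_mono interior_subset)
      (isOpenMap_toE_Basic C _ isOpen_interior)

theorem Chart.frontier_image (C : Chart X E) {B : Set X} (hB : IsCompact B) :
    frontier (C.toE '' B) = C.toE '' frontier B := by
  rw [(hB.image C.cont).isClosed.frontier_eq, hB.isClosed.frontier_eq, C.interior_image,
    image_sdiff C.injective]

/-- The interpolation in the chart. -/
noncomputable def Chart.mixE (C : Chart X E) (q : ℝ × E × E) : E :=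
  C.toE (C.mix q.1 (C.ofE q.2.1) (C.ofE q.2.2))

theorem Chart.mixE_zero (C : Chart X E) {a : E} (b : E) (ha : a ∈ C.dom) :
    C.mixE (0, a, b) = a := by
  rw [Chart.mixE, C.mix_zero, C.toE_ofE ha]

theorem Chart.mixE_toE (C : Chart X E) (t : ℝ) (a b : X) :
    C.mixE (t, C.toE a, C.toE b) = C.toE (C.mix t a b) := by
  rw [Chart.mixE, C.left_inv, C.left_inv]

theorem Chart.contDiffOn_mixE (C : Chart X E) : ContDiffOn ℝ 1 C.mixE C.mixDom := C.mix_smooth

/-- The derivative of the interpolation of `a` and `b` at a zero of the parameter `χ ≥ 0`. -/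
theorem Chart.hasFDerivAt_mixE (C : Chart X E) {a b : E → E} {χ : E → ℝ} {x : E} {a' b' : E →L[ℝ] E}
    (ha : HasFDerivAt a a' x) (hb : HasFDerivAt b b' x) (hχ : HasFDerivAt χ (0 : E →L[ℝ] ℝ) x)
    (h0 : χ x = 0) (had : a x ∈ C.dom) (hbd : b x ∈ C.dom) :
    HasFDerivAt (fun y => C.mixE (χ y, a y, b y)) a' x := by
  have hq : ((0 : ℝ), a x, b x) ∈ C.mixDom :=
    C.mem_mixDom 0 ⟨le_rfl, zero_le_one⟩ _ had _ hbd
  have hM : HasFDerivAt C.mixE (fderiv ℝ C.mixE ((0 : ℝ), a x, b x)) ((0 : ℝ), a x, b x) :=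
    ((C.contDiffOn_mixE.contDiffAt (C.mixDom_open.mem_nhds hq)).differentiableAt
      one_ne_zero).hasFDerivAt
  set M' := fderiv ℝ C.mixE ((0 : ℝ), a x, b x) with hM'
  have h1 : HasFDerivAt (fun p : E × E => C.mixE ((0 : ℝ), p))
      (M' ∘L ContinuousLinearMap.inr ℝ ℝ (E × E)) (a x, b x) := by
    have h2 : HasFDerivAt (fun p : E × E => ((0 : ℝ), p))
        (ContinuousLinearMap.inr ℝ ℝ (E × E)) (a x, b x) := hasFDerivAt_prodMk_right _ _
    exact HasFDerivAt.comp (a x, b x) (g := C.mixE) hM h2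
  have h3 : HasFDerivAt (fun p : E × E => C.mixE ((0 : ℝ), p))
      (ContinuousLinearMap.fst ℝ E E) (a x, b x) := by
    refine (hasFDerivAt_fst (𝕜 := ℝ) (p := (a x, b x))).congr_of_eventuallyEq ?_
    have h4 : ∀ᶠ p : E × E in 𝓝 (a x, b x), p.1 ∈ C.dom :=
      continuous_fst.continuousAt.eventually (C.isOpen_dom.mem_nhds had)
    filter_upwards [h4] with p hp
    exact C.mixE_zero p.2 hp
  have h5 : M' ∘L ContinuousLinearMap.inr ℝ ℝ (E × E) = ContinuousLinearMap.fst ℝ E E :=
    h1.unique h3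
  have h6 : HasFDerivAt (fun y => (χ y, a y, b y))
      ((0 : E →L[ℝ] ℝ).prod (a'.prod b')) x := hχ.prodMk (ha.prodMk hb)
  have h7 : HasFDerivAt (fun y => C.mixE (χ y, a y, b y))
      (M' ∘L (0 : E →L[ℝ] ℝ).prod (a'.prod b')) x := by
    refine HasFDerivAt.comp x (g := C.mixE) (f := fun y => (χ y, a y, b y)) ?_ h6
    show HasFDerivAt C.mixE M' (χ x, a x, b x)
    rw [h0]
    exact hM
  have h8 : M' ∘L (0 : E →L[ℝ] ℝ).prod (a'.prod b') = a' := by
    ext v
    have h9 := congrArg (fun L : E × E →L[ℝ] E => L (a' v, b' v)) h5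
    exact h9
  rw [h8] at h7
  exact h7

theorem Chart.contDiffOn_disp (C : Chart X E) {G : X → X} {V : Set E}
    (hG : ContDiffOn ℝ 1 (C.loc G) V) : ContDiffOn ℝ 1 (C.disp G) V :=
  contDiffOn_id.sub hG

/-! ### The group -/

variable {C : Chart X E} {Z : Type} [Group Z] [MulAction Z X]

theorem Small.mono {B B' : Set X} (h : Small Z B) (hB : B' ⊆ B) : Small Z B' :=
  fun z hz x hx h' => h z hz x (hB hx) (hB h')

theorem Small.eq {B : Set X} (h : Small Z B) {x : X} {z z' : Z} (hz : z • x ∈ B)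
    (hz' : z' • x ∈ B) : z = z' := by
  by_contra hne
  have h1 : z * z'⁻¹ ≠ 1 := fun h0 => hne (mul_inv_eq_one.1 h0)
  apply h _ h1 _ hz'
  rwa [smul_smul, inv_mul_cancel_right]

theorem Small.orbit_injOn {B : Set X} (h : Small Z B) :
    InjOn (fun q => MulAction.orbit Z q) B := by
  intro x hx y hy hxy
  have h1 : x ∈ MulAction.orbit Z y := by
    have h2 : x ∈ MulAction.orbit Z x := MulAction.mem_orbit_self x
    have h3 : MulAction.orbit Z x = MulAction.orbit Z y := hxy
    rwa [h3] at h2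
  obtain ⟨z, hz⟩ := h1
  by_cases h2 : z = 1
  · subst h2
    simpa using hz.symm
  · have h3 : z • y = x := hz
    exact absurd (h3 ▸ hx) (h z h2 y hy)

theorem subset_sat (K : Set X) : K ⊆ sat Z K := fun x hx => ⟨1, by rwa [one_smul]⟩

theorem smul_mem_sat {K : Set X} {z : Z} {x : X} : z • x ∈ sat Z K ↔ x ∈ sat Z K := by
  constructor
  · rintro ⟨w, hw⟩
    exact ⟨w * z, by rwa [mul_smul]⟩
  · rintro ⟨w, hw⟩
    exact ⟨w * z⁻¹, by rwa [smul_smul, inv_mul_cancel_right]⟩

theorem sat_mono {K K' : Set X} (h : K ⊆ K') : sat Z K ⊆ sat Z K' :=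
  fun _ ⟨z, hz⟩ => ⟨z, h hz⟩

theorem Action.continuous_smul (hZ : Action C Z) (z : Z) : Continuous fun x : X => z • x :=
  (Isometry.of_dist_eq (hZ.dist_smul z)).continuous

private theorem sat_eq_Basic (K : Set X) : sat Z K = ⋃ z : Z, (fun x : X => z • x) ⁻¹' K := by
  ext x
  simp [sat]

theorem Action.isOpen_sat (hZ : Action C Z) {U : Set X} (hU : IsOpen U) : IsOpen (sat Z U) := by
  rw [sat_eq_Basic]
  exact isOpen_iUnion fun z => hU.preimage (hZ.continuous_smul z)

variable [ProperSpace X]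

/-- near a given point only finitely many translates of a compact set are seen -/
theorem Action.isClosed_sat (hZ : Action C Z) {K : Set X} (hK : IsCompact K) :
    IsClosed (sat Z K) := by
  rw [sat_eq_Basic]
  apply LocallyFinite.isClosed_iUnion
  · intro x
    refine ⟨closedBall x 1, closedBall_mem_nhds x one_pos, ?_⟩
    have h1 : IsCompact (K ∪ closedBall x 1) := hK.union (isCompact_closedBall x 1)
    refine (hZ.proper _ h1).subset ?_
    rintro z ⟨y, hy, hy'⟩
    exact ⟨y, Or.inr hy', Or.inl hy⟩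
  · intro z
    exact hK.isClosed.preimage (hZ.continuous_smul z)

private theorem exists_rho_Basic {S : Set Z} (hS : S.Finite) (d : Z → ℝ)
    (hd : ∀ z ∈ S, 0 < d z) : ∃ ρ > 0, ρ ≤ 1 ∧ ∀ z ∈ S, 2 * ρ < d z := by
  have h1 : ∀ᶠ ρ : ℝ in 𝓝[>] 0, ∀ z ∈ S, 2 * ρ < d z := by
    rw [Filter.eventually_all_finite hS]
    intro z hz
    have h2 : Tendsto (fun ρ : ℝ => 2 * ρ) (𝓝[>] 0) (𝓝 (2 * 0)) :=
      (continuous_const.mul continuous_id).continuousAt.tendsto.mono_left nhdsWithin_le_nhds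
    rw [mul_zero] at h2
    exact h2.eventually (gt_mem_nhds (hd z hz))
  have h3 : ∀ᶠ ρ : ℝ in 𝓝[>] 0, ρ ≤ 1 :=
    (Filter.Eventually.filter_mono nhdsWithin_le_nhds (ge_mem_nhds one_pos))
  have h4 : ∀ᶠ ρ : ℝ in 𝓝[>] 0, 0 < ρ := self_mem_nhdsWithin
  obtain ⟨ρ, ⟨h5, h6⟩, h7⟩ := ((h1.and h3).and h4).exists
  exact ⟨ρ, h7, h6, h5⟩

theorem Action.exists_small (hZ : Action C Z) (p : X) : ∃ ρ > 0, Small Z (closedBall p ρ) := by
  have hfin := hZ.proper _ (isCompact_closedBall p 1)
  obtain ⟨ρ, h0, h1, h2⟩ := exists_rho_Basic (hfin.subset (sep_subset _ fun z => z ≠ 1))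
    (fun z => dist (z • p) p) (fun z hz => dist_pos.2 fun h => hz.2 (hZ.free z p h))
  refine ⟨ρ, h0, fun z hz x hx hzx => ?_⟩
  rw [mem_closedBall] at hx hzx
  have h3 := h2 z ⟨⟨x, mem_closedBall.2 (hx.trans h1), mem_closedBall.2 (hzx.trans h1)⟩, hz⟩
  have h4 := dist_triangle (z • p) (z • x) p
  rw [hZ.dist_smul, dist_comm p x] at h4
  linarith

/-- the points at distance less than `r` from `p`, up to the group: two points in different orbits
have neighbourhoods whose saturations are disjoint -/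
theorem Action.exists_disjoint (hZ : Action C Z) {p p' : X} (h : ∀ z : Z, z • p ≠ p') :
    ∃ ρ > 0, ∀ x ∈ closedBall p ρ, x ∉ sat Z (closedBall p' ρ) := by
  have hfin := hZ.proper _ ((isCompact_closedBall p 1).union (isCompact_closedBall p' 1))
  obtain ⟨ρ, h0, h1, h2⟩ := exists_rho_Basic hfin
    (fun z => dist (z • p) p') (fun z _ => dist_pos.2 (h z))
  refine ⟨ρ, h0, ?_⟩
  rintro x hx ⟨z, hzx⟩
  rw [mem_closedBall] at hx hzx
  have h3 := h2 z ⟨x, Or.inl (mem_closedBall.2 (hx.trans h1)),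
    Or.inr (mem_closedBall.2 (hzx.trans h1))⟩
  have h4 := dist_triangle (z • p) (z • x) p'
  rw [hZ.dist_smul, dist_comm p x] at h4
  linarith

end Pool.Agent.ANO5.A2.EqIdx
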