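import Pool.Agent.ANO5.A2.EqIdx.Sign

/-!
# Equivariant index: finiteness (package EQ-FIN)

* `finite_fix`: the set `K ∩ Fix G` is in bijection (`C.toE`) with the zeros of `C.disp G` in the
  compact set `C.toE '' K`; use `Pool.Agent.ANO.Idx.finite_zeros` with `V = C.dom`.
* `finite_fixOrb`: every orbit of fixed points meets `K`.
* `encard_eq`: `osg` is the constant `σ` on the finite set `fixOrb Z G`.
-/

set_option autoImplicit false
set_option linter.unusedSectionVars false

open Set Filter Topology Metric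
open Pool.Agent.SmoothDegree Pool.Agent.ANO.Idx

namespace Pool.Agent.ANO5.A2.EqIdx

variable {X E : Type} [MetricSpace X] [NormedAddCommGroup E] [NormedSpace ℝ E]
  [FiniteDimensional ℝ E]
variable {C : Chart X E} {Z : Type} [Group Z] [MulAction Z X]

theorem finite_fix {G : X → X} (hG : Eqv C Z G) {K : Set X} (hK : IsCompact K)
    (hnd : NdOn C G K) : (K ∩ {q | G q = q}).Finite := by
  have hreg : Reg (C.disp G) (C.toE '' K) := by
    rintro x ⟨q, hq, rfl⟩ h0
    exact hnd q hq (C.disp_eq_zero.1 h0)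
  have h1 := finite_zeros (U := C.toE '' K) (V := C.dom) (h := C.disp G) (hK.image C.cont)
    C.isOpen_dom (by rintro x ⟨q, -, rfl⟩; exact C.mem_dom q) (C.contDiffOn_disp hG.smooth) hreg
  refine Set.Finite.of_finite_image (f := C.toE) (h1.subset ?_) C.injective.injOn
  rintro x ⟨q, ⟨hq, hf⟩, rfl⟩
  exact ⟨mem_image_of_mem _ hq, C.disp_eq_zero.2 hf⟩

theorem finite_fixOrb {G : X → X} (hG : Eqv C Z G) {K : Set X} (hK : IsCompact K)
    (hnd : NdOn C G K) (hfix : ∀ q, G q = q → q ∈ sat Z K) : (fixOrb Z G).Finite := by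
  refine ((finite_fix hG hK hnd).image (fun q => MulAction.orbit Z q)).subset ?_
  rintro o ⟨q, hq, rfl⟩
  obtain ⟨z, hz⟩ := hfix q hq
  have hq' : G q = q := hq
  refine ⟨z • q, ⟨hz, ?_⟩, MulAction.orbit_smul z q⟩
  change G (z • q) = z • q
  rw [hG.equi, hq']

theorem encard_eq (hZ : Action C Z) {G : X → X} (hG : Eqv C Z G) {σ : ℤ} (hσ : σ.natAbs = 1)
    (hs : ∀ q, G q = q → sg C G q = σ) (hfin : (fixOrb Z G).Finite) :
    (fixOrb Z G).encard = (tot C Z G).natAbs := by
  have h1 : ∀ o ∈ fixOrb Z G, osg C G o = σ := by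
    rintro o ⟨q, hq, rfl⟩
    have hq' : G q = q := hq
    change osg C G (MulAction.orbit Z q) = σ
    rw [osg_orbit hZ hG hq', hs q hq']
  have h2 : (tot C Z G).natAbs = (fixOrb Z G).ncard := by
    unfold tot
    rw [finsum_mem_congr rfl (g := fun _ => σ) h1,
      finsum_mem_eq_finite_toFinset_sum _ hfin, Finset.sum_const, nsmul_eq_mul, Int.natAbs_mul,
      hσ, mul_one, Int.natAbs_natCast, Set.ncard_eq_toFinset_card _ hfin]
  rw [h2, hfin.cast_ncard_eq]

end Pool.Agent.ANO5.A2.EqIdx
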