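import Pool.Agent.ANO5.A2.EqIdx.Approx
import Pool.Agent.ANO5.A2.EqIdx.Loc

/-!
# Equivariant index: the main theorem with local comparison data (package EQ-DATA)

As `encard_fixOrb_le` (`Main.lean`), but `G₀` is only continuous near its fixed points; instead
there
are finitely many compact sets `N i` with disjoint translates and disjoint saturations, whose
interiors contain representatives of all fixed points of `G₀`, and `C¹` functions `κ i` near
`C.toE '' N i` with nondegenerate zeros, homotopic to `C.disp G₀` without zeros on the frontier.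

Proof. `L` compact with `dist x (G₀ x) ≤ c + 2 → x ∈ sat L`; `M = L ∪ ⋃ i, N i`. The compact set
`L \ ⋃ i, sat (interior (N i))` (`Action.isOpen_sat`) contains no fixed point of `G₀`, so
`dist x (G₀ x) ≥ 2 η₁ > 0` there, hence on `sat L \ ⋃ sat (interior (N i))`, and also
`dist x (G₀ x) ≥ 2 η₁` on the compact sets `frontier (N i)` (`C.disp G₀ ≠ 0` there: `t = 0`). On
the compact set `frontier (C.toE '' N i) × [0, 1]` the homotopy has norm `≥ 2 m₀ > 0`. Let
`η ≤ min 1 η₁` be such that `dist a (G₀ x) ≤ η → ‖toE a - toE (G₀ x)‖ < m₀` for `x ∈ N i`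
(`near_toE` for the compact sets `G₀ '' N i`). Apply `exists_approx_on` with `M`, `δ = η`: `G'`.
Fixed points `q` of `G'`: `dist q (G₀ q) = dist (G' q) (G₀ q) ≤ c + 1`, so `q ∈ sat L`, so
`dist q (G₀ q) ≤ η`, so `q ∈ sat (interior (N i))` for some `i`. By `tot_eq_sum`
`tot G = tot G' = ∑ i, cnt (C.disp G') (C.toE '' N i)`, and
`cnt (C.disp G') (C.toE '' N i) = cnt (κ i) (C.toE '' N i)`: `signed_count_homotopy` for `C¹`
extensions (`Pool.Agent.ANO.Idx.exists_ext`, `cnt_congr`), with the homotopy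
`(1 - t) • C.disp G' + t • κ i`, which differs from `(1 - t) • C.disp G₀ + t • κ i` by less than
`m₀` on the frontier. Finally `natAbs_cnt_le` (for `encard = ⊤` nothing is to be proved),
`encard_eq`, `finite_fixOrb`.
-/

set_option autoImplicit false
set_option linter.unusedSectionVars false

open Set Filter Topology Metric
open Pool.Agent.SmoothDegree Pool.Agent.ANO.Idx

namespace Pool.Agent.ANO5.A2.EqIdx

variable {X E : Type} [MetricSpace X] [ProperSpace X] [NormedAddCommGroup E] [NormedSpace ℝ E]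
  [FiniteDimensional ℝ E] [Nontrivial E]
variable {C : Chart X E} {Z : Type} [Group Z] [MulAction Z X]

private theorem lower_Data {Y : Type} [TopologicalSpace Y] {K : Set Y} (hK : IsCompact K)
    {f : Y → ℝ} (hf : ContinuousOn f K) (hpos : ∀ x ∈ K, 0 < f x) :
    ∃ m > 0, ∀ x ∈ K, m ≤ f x := by
  rcases K.eq_empty_or_nonempty with h | h
  · exact ⟨1, one_pos, by simp [h]⟩
  · obtain ⟨p, hp, hmin⟩ := hK.exists_isMinOn h hf
    exact ⟨f p, hpos p hp, fun x hx => hmin hx⟩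

private theorem natAbs_sum_Data {ι : Type} [Fintype ι] (a : ι → ℤ) (n : ℕ)
    (h : ∀ i, (a i).natAbs ≤ n) : (∑ i, a i).natAbs ≤ Fintype.card ι * n := by
  have h2 : |∑ i, a i| ≤ ∑ _i : ι, (n : ℤ) := by
    refine (Finset.abs_sum_le_sum_abs _ _).trans (Finset.sum_le_sum fun i _ => ?_)
    have := h i
    rw [Int.abs_eq_natAbs]
    exact_mod_cast this
  rw [Finset.sum_const, nsmul_eq_mul, Int.abs_eq_natAbs, Finset.card_univ] at h2
  exact_mod_cast h2

/-- a map close to one end of a homotopy without zeros on the frontier -/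
private theorem cnt_eq_Data {U V V' : Set E} {h g k : E → E} {m₀ : ℝ} (hU : IsCompact U)
    (hV : IsOpen V) (hUV : U ⊆ V) (hh : ContDiffOn ℝ 1 h V) (hreg : Reg h U) (hV' : IsOpen V')
    (hUV' : U ⊆ V') (hk : ContDiffOn ℝ 1 k V') (hkreg : Reg k U)
    (hfr : ∀ x ∈ frontier U, ∀ t ∈ Icc (0 : ℝ) 1, m₀ ≤ ‖g x + t • (k x - g x)‖)
    (hclose : ∀ x ∈ frontier U, ‖h x - g x‖ < m₀) :
    cnt h U = cnt k U := by
  obtain ⟨h', hh', hhe⟩ := exists_ext hV hh hU hUV
  obtain ⟨k', hk', hke⟩ := exists_ext hV' hk hU hUV'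
  have hUfr : frontier U ⊆ U := hU.isClosed.frontier_subset
  rw [← cnt_congr hhe, ← cnt_congr hke]
  refine signed_count_homotopy hh' hk' hU ?_ (hreg.congr hhe) (hkreg.congr hke)
  intro x hx t ht h0
  rw [(hhe x (hUfr hx)).eq_of_nhds, (hke x (hUfr hx)).eq_of_nhds] at h0
  have e1 : g x + t • (k x - g x) = -((1 - t) • (h x - g x)) := by
    have e2 : h x + t • (k x - h x)
        = (g x + t • (k x - g x)) + (1 - t) • (h x - g x) := by module
    rw [e2] at h0
    exact eq_neg_of_add_eq_zero_left h0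
  have e3 := hfr x hx t ht
  have e3' := hclose x hx
  have ht' : 0 ≤ 1 - t := by linarith [ht.2]
  rw [e1, norm_neg, norm_smul, Real.norm_eq_abs, abs_of_nonneg ht'] at e3
  have e5 : (1 - t) * ‖h x - g x‖ ≤ 1 * ‖h x - g x‖ :=
    mul_le_mul_of_nonneg_right (by linarith [ht.1]) (norm_nonneg _)
  linarith

theorem encard_fixOrb_le_data (hZ : Action C Z) {G G₀ : X → X} (hG : Eqv C Z G)
    (hnd : NdOn C G univ) {σ : ℤ} (hσ : σ.natAbs = 1) (hs : ∀ q, G q = q → sg C G q = σ)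
    (hG₀ : Continuous G₀) (he : ∀ (z : Z) (x : X), G₀ (z • x) = z • G₀ x) {c : ℝ}
    (hc : ∀ x, dist (G x) (G₀ x) ≤ c)
    (hcpt : ∀ R : ℝ, ∃ L, IsCompact L ∧ ∀ x, dist x (G₀ x) ≤ R → x ∈ sat Z L)
    {ι : Type} [Fintype ι] (N : ι → Set X) (hN : ∀ i, IsCompact (N i))
    (hsm : ∀ i, Small Z (N i)) (hdis : ∀ i j, i ≠ j → ∀ x ∈ N i, x ∉ sat Z (N j))
    (hfix : ∀ q, G₀ q = q → ∃ i, q ∈ sat Z (interior (N i))) (κ : ι → E → E) (W : ι → Set E)
    (hW : ∀ i, IsOpen (W i)) (hNW : ∀ i, C.toE '' N i ⊆ W i)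
    (hκ : ∀ i, ContDiffOn ℝ 1 (κ i) (W i)) (hκr : ∀ i, Reg (κ i) (C.toE '' N i))
    (hfr : ∀ i, ∀ x ∈ frontier (C.toE '' N i), ∀ t ∈ Icc (0 : ℝ) 1,
      C.disp G₀ x + t • (κ i x - C.disp G₀ x) ≠ 0)
    (n : ℕ) (hn : ∀ i, (C.toE '' N i ∩ κ i ⁻¹' {0}).encard ≤ n) :
    (fixOrb Z G).encard ≤ (Fintype.card ι * n : ℕ) := by
  rcases isEmpty_or_nonempty X with hX | ⟨⟨x₀⟩⟩
  · have h1 : fixOrb Z G = ∅ := by
      rw [fixOrb, image_eq_empty]
      exact eq_empty_of_forall_notMem fun x => (hX.false x).elim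
    rw [h1, encard_empty]
    exact zero_le
  have hc0 : 0 ≤ c := dist_nonneg.trans (hc x₀)
  obtain ⟨L, hL, hLc⟩ := hcpt (c + 2)
  -- the part of `L` away from the fixed points
  have hA : IsCompact (L \ ⋃ i, sat Z (interior (N i))) :=
    hL.diff (isOpen_iUnion fun i => hZ.isOpen_sat isOpen_interior)
  obtain ⟨η₁, hη₁, hA1⟩ := lower_Data hA (f := fun x => dist x (G₀ x))
    (continuous_id.dist hG₀).continuousOn (by
      intro x hx
      rw [dist_pos]
      intro h0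
      obtain ⟨i, hi⟩ := hfix x h0.symm
      exact hx.2 (mem_iUnion.2 ⟨i, hi⟩))
  have hA2 : ∀ x ∈ sat Z L, dist x (G₀ x) < η₁ → ∃ i, x ∈ sat Z (interior (N i)) := by
    intro x hx hd
    by_contra hcon
    push Not at hcon
    obtain ⟨z, hz⟩ := hx
    have h1 : z • x ∈ L \ ⋃ i, sat Z (interior (N i)) := by
      refine ⟨hz, ?_⟩
      rw [mem_iUnion]
      rintro ⟨i, hi⟩
      exact hcon i (smul_mem_sat.1 hi)
    have h2 := hA1 _ h1
    simp only [he, hZ.dist_smul] at h2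
    linarith
  -- the frontiers
  have hfrc : ∀ i, IsCompact (frontier (C.toE '' N i)) := fun i =>
    ((hN i).image C.cont).of_isClosed_subset isClosed_frontier
      ((hN i).image C.cont).isClosed.frontier_subset
  have hFc : ∀ i, ContinuousOn
      (fun y : E × ℝ => ‖C.disp G₀ y.1 + y.2 • (κ i y.1 - C.disp G₀ y.1)‖)
      (frontier (C.toE '' N i) ×ˢ Icc (0 : ℝ) 1) := by
    intro i
    have hsub : frontier (C.toE '' N i) ⊆ C.toE '' N i :=
      ((hN i).image C.cont).isClosed.frontier_subset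
    have h1 : ContinuousOn (C.disp G₀) (frontier (C.toE '' N i)) := by
      refine (continuousOn_id.sub (C.continuousOn_loc hG₀)).mono (hsub.trans ?_)
      rintro _ ⟨p, -, rfl⟩
      exact C.mem_dom p
    have h2 : ContinuousOn (κ i) (frontier (C.toE '' N i)) :=
      (hκ i).continuousOn.mono (hsub.trans (hNW i))
    have h3 : MapsTo (Prod.fst : E × ℝ → E) (frontier (C.toE '' N i) ×ˢ Icc (0 : ℝ) 1)
        (frontier (C.toE '' N i)) := fun y hy => hy.1
    have h4 : ContinuousOn (fun y : E × ℝ => C.disp G₀ y.1)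
        (frontier (C.toE '' N i) ×ˢ Icc (0 : ℝ) 1) := h1.comp continuousOn_fst h3
    have h5 : ContinuousOn (fun y : E × ℝ => κ i y.1)
        (frontier (C.toE '' N i) ×ˢ Icc (0 : ℝ) 1) := h2.comp continuousOn_fst h3
    exact (h4.add (continuousOn_snd.smul (h5.sub h4))).norm
  have hlow : ∀ i, ∃ m > 0, ∀ y ∈ frontier (C.toE '' N i) ×ˢ Icc (0 : ℝ) 1,
      m ≤ ‖C.disp G₀ y.1 + y.2 • (κ i y.1 - C.disp G₀ y.1)‖ := by
    intro i
    refine lower_Data ((hfrc i).prod isCompact_Icc) (hFc i) ?_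
    rintro ⟨x, t⟩ ⟨hx, ht⟩
    exact norm_pos_iff.2 (hfr i x hx t ht)
  choose m hm hmlow using hlow
  obtain ⟨m₀, hm₀, hm₀'⟩ : ∃ m₀ : ℝ, 0 < m₀ ∧ ∀ i, m₀ ≤ m i := by
    rcases isEmpty_or_nonempty ι with hι | hι
    · exact ⟨1, one_pos, fun i => (hι.false i).elim⟩
    · obtain ⟨i₀, hi₀⟩ := Finite.exists_min m
      exact ⟨m i₀, hm i₀, hi₀⟩
  have hK : IsCompact (G₀ '' ⋃ i, N i) := (isCompact_iUnion hN).image hG₀
  obtain ⟨ε, hε, hnear⟩ := near_toE C hK hm₀
  obtain ⟨η, hη, hη1, hη2, hη3⟩ : ∃ η : ℝ, 0 < η ∧ η ≤ 1 ∧ η < η₁ ∧ η < ε := by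
    refine ⟨min 1 (min (η₁ / 2) (ε / 2)), by positivity, min_le_left _ _, ?_, ?_⟩
    · have : min 1 (min (η₁ / 2) (ε / 2)) ≤ η₁ / 2 := (min_le_right _ _).trans (min_le_left _ _)
      linarith
    · have : min 1 (min (η₁ / 2) (ε / 2)) ≤ ε / 2 := (min_le_right _ _).trans (min_le_right _ _)
      linarith
  have hM : IsCompact (L ∪ ⋃ i, N i) := hL.union (isCompact_iUnion hN)
  obtain ⟨G', hG', hnd', hd1, hd2, htot⟩ :=
    exists_approx_on hZ hG hnd hG₀ he hc hL hLc hM hη hη1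
  have hfixL : ∀ q, G' q = q → q ∈ sat Z L := by
    intro q hq
    apply hLc
    have h1 := hd1 q
    rw [hq] at h1
    linarith
  have hfixN : ∀ q, G' q = q → ∃ i, q ∈ sat Z (N i) := by
    intro q hq
    have h1 := hd2 q (sat_mono subset_union_left (hfixL q hq))
    rw [hq] at h1
    obtain ⟨i, hi⟩ := hA2 q (hfixL q hq) (by linarith)
    exact ⟨i, sat_mono interior_subset hi⟩
  have hfinG' : (fixOrb Z G').Finite :=
    finite_fixOrb hG' hL (fun q _ => hnd' q (mem_univ q)) hfixL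
  have hsum := tot_eq_sum hZ hG' N hsm hdis hfixN hfinG'
  have hcnt : ∀ i, cnt (C.disp G') (C.toE '' N i) = cnt (κ i) (C.toE '' N i) := by
    intro i
    refine cnt_eq_Data (V := C.dom) (V' := W i) (g := C.disp G₀) (m₀ := m₀)
      ((hN i).image C.cont) C.isOpen_dom ?_ (C.contDiffOn_disp hG'.smooth) ?_ (hW i) (hNW i)
      (hκ i) (hκr i) ?_ ?_
    · rintro _ ⟨p, -, rfl⟩
      exact C.mem_dom p
    · rintro _ ⟨q, -, rfl⟩ h0
      exact hnd' q (mem_univ q) (C.disp_eq_zero.1 h0)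
    · intro x hx t ht
      exact (hm₀' i).trans (hmlow i (x, t) ⟨hx, ht⟩)
    · intro x hx
      obtain ⟨q, hqN, rfl⟩ := ((hN i).image C.cont).isClosed.frontier_subset hx
      have h2 := hd2 q (subset_sat _ (Or.inr (mem_iUnion.2 ⟨i, hqN⟩)))
      have h3 : ‖C.toE (G' q) - C.toE (G₀ q)‖ < m₀ :=
        hnear (G₀ q) ⟨q, mem_iUnion.2 ⟨i, hqN⟩, rfl⟩ (G' q) (by linarith)
      rw [C.disp_toE, C.disp_toE, sub_sub_sub_cancel_left, norm_sub_rev]
      exact h3
  have h1 : ∀ i, (cnt (C.disp G') (C.toE '' N i)).natAbs ≤ n := by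
    intro i
    rw [hcnt i]
    exact natAbs_cnt_le (hn i)
  have hfinG : (fixOrb Z G).Finite := by
    refine finite_fixOrb hG hL (fun q _ => hnd q (mem_univ q)) ?_
    intro q hq
    apply hLc
    have h2 := hc q
    rw [hq] at h2
    linarith
  rw [encard_eq hZ hG hσ hs hfinG, ← htot, hsum]
  exact_mod_cast natAbs_sum_Data _ n h1

end Pool.Agent.ANO5.A2.EqIdx
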