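import Pool.Agent.ANO5.A2.EqIdx.Basic

/-!
# Equivariant index: equivariant extension of a local modification (package EQ-EXT)

`B` compact with disjoint translates, `K ⊆ interior B` compact, `m = G` on `B \ K`.  Define `G' x`
as
`z⁻¹ • m (z • x)` if `z • x ∈ B` for some `z` (unique by `Small.eq`), and as `G x` otherwise.

* `G'` is equivariant.
* `G' = m` on `B`; `G' = G` off `sat K` (for `z • x ∈ B \ K`: `z⁻¹ • m (z • x) = z⁻¹ • G (z • x)`).
* smooth: `X` is the union of the open sets `sat (interior B)` and `(sat K)ᶜ`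
  (`Action.isClosed_sat`);
  on the second `G' = G`; near a point `x` with `z • x ∈ interior B` one has
  `G' = z⁻¹ • m (z • ·)` near `x`, so `C.loc G' = C.loc (z⁻¹ • ·) ∘ C.loc m ∘ C.loc (z • ·)` near
  `toE x`, a composition of `C¹` maps.
-/

set_option autoImplicit false
set_option linter.unusedSectionVars false

open Set Filter Topology Metric
open Pool.Agent.SmoothDegree Pool.Agent.ANO.Idx

namespace Pool.Agent.ANO5.A2.EqIdx

variable {X E : Type} [MetricSpace X] [ProperSpace X] [NormedAddCommGroup E] [NormedSpace ℝ E]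
variable {C : Chart X E} {Z : Type} [Group Z] [MulAction Z X]

open Classical in
/-- The modified map. -/
private noncomputable def glue_Ext (Z : Type) [Group Z] [MulAction Z X] (G m : X → X) (B : Set X)
    (x : X) : X :=
  if h : ∃ z : Z, z • x ∈ B then h.choose⁻¹ • m (h.choose • x) else G x

private theorem glue_of_mem_Ext {G m : X → X} {B : Set X} (hs : Small Z B) {x : X} {z : Z}
    (hz : z • x ∈ B) : glue_Ext Z G m B x = z⁻¹ • m (z • x) := by
  have h : ∃ z : Z, z • x ∈ B := ⟨z, hz⟩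
  have h1 : h.choose = z := hs.eq h.choose_spec hz
  rw [glue_Ext, dif_pos h, h1]

private theorem glue_of_not_Ext {G m : X → X} {B : Set X} {x : X}
    (hz : ¬ ∃ z : Z, z • x ∈ B) : glue_Ext Z G m B x = G x := by
  rw [glue_Ext, dif_neg hz]

private theorem glue_smul_Ext {G m : X → X} (hG : Eqv C Z G) {B : Set X} (hs : Small Z B)
    (z : Z) (x : X) : glue_Ext Z G m B (z • x) = z • glue_Ext Z G m B x := by
  by_cases h : ∃ w : Z, w • x ∈ B
  · obtain ⟨w, hw⟩ := h
    have h1 : (w * z⁻¹) • z • x ∈ B := by rwa [smul_smul, inv_mul_cancel_right]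
    rw [glue_of_mem_Ext hs hw, glue_of_mem_Ext hs h1, smul_smul, inv_mul_cancel_right,
      smul_smul, mul_inv_rev, inv_inv]
  · have h1 : ¬ ∃ w : Z, w • z • x ∈ B := by
      rintro ⟨w, hw⟩
      exact h ⟨w * z, by rwa [mul_smul]⟩
    rw [glue_of_not_Ext h, glue_of_not_Ext h1, hG.equi]

private theorem glue_off_Ext {G m : X → X} (hG : Eqv C Z G) {B K : Set X} (hs : Small Z B)
    (hmG : ∀ x ∈ B, x ∉ K → m x = G x) {x : X} (hx : x ∉ sat Z K) :
    glue_Ext Z G m B x = G x := by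
  by_cases h : ∃ w : Z, w • x ∈ B
  · obtain ⟨w, hw⟩ := h
    rw [glue_of_mem_Ext hs hw, hmG _ hw (fun h1 => hx ⟨w, h1⟩), hG.equi, inv_smul_smul]
  · exact glue_of_not_Ext h

private theorem smooth_Ext (hZ : Action C Z) {G : X → X} (hG : Eqv C Z G) {B K : Set X}
    (hs : Small Z B) (hK : IsCompact K) (hKB : K ⊆ interior B) {m : X → X}
    (hm : ContDiffOn ℝ 1 (C.loc m) (C.toE '' interior B)) (hmG : ∀ x ∈ B, x ∉ K → m x = G x) :
    ContDiffOn ℝ 1 (C.loc (glue_Ext Z G m B)) C.dom := by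
  rintro _ ⟨p, rfl⟩
  apply ContDiffAt.contDiffWithinAt
  by_cases hp : p ∈ sat Z (interior B)
  · obtain ⟨z, hz⟩ := hp
    have h1 : glue_Ext Z G m B =ᶠ[𝓝 p] fun y => z⁻¹ • m (z • y) := by
      have h2 : ∀ᶠ y in 𝓝 p, z • y ∈ interior B :=
        (hZ.continuous_smul z).continuousAt.eventually (isOpen_interior.mem_nhds hz)
      filter_upwards [h2] with y hy
      exact glue_of_mem_Ext hs (interior_subset hy)
    refine ContDiffAt.congr_of_eventuallyEq ?_ (C.loc_congr h1)
    have h3 : C.loc (fun y => z⁻¹ • m (z • y)) =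
        (C.loc fun y => z⁻¹ • y) ∘ C.loc m ∘ (C.loc fun y => z • y) := by
      funext x
      simp only [Chart.loc, Function.comp_apply, C.left_inv]
    rw [h3]
    have h4 : ContDiffAt ℝ 1 (C.loc fun y => z • y) (C.toE p) :=
      (hZ.smooth z).contDiffAt (C.isOpen_dom.mem_nhds (C.mem_dom p))
    have h5 : ContDiffAt ℝ 1 (C.loc m) ((C.loc fun y => z • y) (C.toE p)) := by
      rw [Chart.loc_toE]
      exact hm.contDiffAt ((C.isOpenEmbedding.isOpenMap _ isOpen_interior).mem_nhds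
        (mem_image_of_mem _ hz))
    have h6 : ContDiffAt ℝ 1 (C.loc fun y => z⁻¹ • y)
        ((C.loc m ∘ (C.loc fun y => z • y)) (C.toE p)) := by
      rw [Function.comp_apply]
      exact (hZ.smooth z⁻¹).contDiffAt (C.isOpen_dom.mem_nhds (C.loc_mem_dom m _))
    exact h6.comp _ (h5.comp _ h4)
  · have hpK : p ∉ sat Z K := fun h => hp (sat_mono hKB h)
    have h1 : glue_Ext Z G m B =ᶠ[𝓝 p] G := by
      filter_upwards [(hZ.isClosed_sat hK).isOpen_compl.mem_nhds hpK] with y hy
      exact glue_off_Ext hG hs hmG hy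
    exact (hG.smooth.contDiffAt (C.isOpen_dom.mem_nhds (C.mem_dom p))).congr_of_eventuallyEq
      (C.loc_congr h1)

theorem exists_extend (hZ : Action C Z) {G : X → X} (hG : Eqv C Z G) {B K : Set X}
    (hs : Small Z B) (hK : IsCompact K) (hKB : K ⊆ interior B) {m : X → X}
    (hm : ContDiffOn ℝ 1 (C.loc m) (C.toE '' interior B)) (hmG : ∀ x ∈ B, x ∉ K → m x = G x) :
    ∃ G' : X → X, Eqv C Z G' ∧ (∀ x ∈ B, G' x = m x) ∧ ∀ x, x ∉ sat Z K → G' x = G x := by
  refine ⟨glue_Ext Z G m B, ⟨smooth_Ext hZ hG hs hK hKB hm hmG, glue_smul_Ext hG hs⟩, ?_, ?_⟩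
  · intro x hx
    have h1 : (1 : Z) • x ∈ B := by rwa [one_smul]
    rw [glue_of_mem_Ext hs h1, inv_one, one_smul, one_smul]
  · intro x hx
    exact glue_off_Ext hG hs hmG hx

end Pool.Agent.ANO5.A2.EqIdx
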