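import Pool.Agent.ANO5.A2.EqIdx.Basic
import Pool.Agent.ANO5.A1.Idx.Crd

/-!
# Equivariant index: the chart of `ℍ^r × W`
-/

set_option autoImplicit false

open Set Filter Topology
open Pool.Agent.ANO5.A1

namespace Pool.Agent.ANO5.A2.EqIdx

variable [Fib]

/-- The standard chart of `ℍ^r × W`. -/
noncomputable def chartX (r : ℕ) : Chart (A1.X r) (A1.E r) where
  toE := toE
  ofE := ofE
  left_inv := Idx.ofE_toE
  isOpen := by
    rw [Idx.range_toE]
    exact Idx.isOpen_dom
  cont := Idx.continuous_toE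
  contOf := by
    rw [Idx.range_toE]
    exact Idx.continuousOn_ofE
  mix := Idx.mix
  mix_zero := Idx.mix_zero
  mix_one := Idx.mix_one
  mix_dist t ht a b := Idx.mix_dist a b ht
  mixDom := Idx.mixDom r
  mixDom_open := Idx.isOpen_mixDom
  mem_mixDom := by
    rintro t ht _ ⟨a, rfl⟩ _ ⟨b, rfl⟩
    exact Idx.mem_mixDom ht a b
  mix_smooth := Idx.smooth_mix

@[simp] theorem chartX_toE (r : ℕ) (p : A1.X r) : (chartX r).toE p = toE p := rfl

@[simp] theorem chartX_ofE (r : ℕ) (x : A1.E r) : (chartX r).ofE x = ofE x := rfl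

@[simp] theorem chartX_loc (r : ℕ) (G : A1.X r → A1.X r) :
    (chartX r).loc G = loc G := rfl

theorem chartX_dom (r : ℕ) : (chartX r).dom = dom r := Idx.range_toE

end Pool.Agent.ANO5.A2.EqIdx
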