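import Pool.Agent.ANO.Idx.Count

/-!
# Equivariant index: Sard (package EQ-SARD)

`F_v x = x - (h x + χ x • (g x + v - h x))`.

* `exists_reg`: on the open set `V' = {x ∈ V | χ x ≠ 0}` let
  `ψ x = (χ x)⁻¹ • (x - h x) - (g x - h x)`; then `F_v x = χ x • (ψ x - v)`. The image of the set of
  critical points of `ψ` in `V'` has measure zero
  (`MeasureTheory.addHaar_image_eq_zero_of_det_fderiv_eq_zero` with an additive Haar measure of `E`:
  `borel E`, `MeasureTheory.Measure.addHaar`; see the proof of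
  `Pool.Agent.SmoothDegree.frequently_isRegularValue`), so there is `v` with `‖v‖ < δ` outside it.
  If
  `F_v x = 0`, `x ∈ V'`, then `ψ x = v`, `det Dψ x ≠ 0`, and `D F_v x = χ x • Dψ x` (product rule;
  the
  term with `Dχ` vanishes as `ψ x - v = 0`), so the determinant is `χ x ^ dim E * det Dψ x ≠ 0`.
* `fderiv_at_zero`: if `χ ≥ 0` and `χ x = 0` then `Dχ x = 0` (minimum), and the derivative of `F_v`
  at
  `x` is that of `x - h x`.
* `exists_small_reg`: the version for perturbing near a map whose zeros in a compact set are already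
  nondegenerate: for `K ⊆ V` compact, if all zeros of `x - h x` in `K` are nondegenerate then for
  all
  small `v` all zeros of `x - (h x + χ x • v)` in `K` are nondegenerate. Proof: the continuous
  function
  `(x, v) ↦ ‖x - h x - χ x • v‖ + |det (D (x - h x) - Dχ(x) ⊗ v)|` is positive on `K × {0}`, so
  (compactness, `generalized_tube_lemma` or `IsCompact.exists_isMinOn`) on `K × ball 0 δ`.
-/

set_option autoImplicit false
set_option linter.unusedSectionVars false

open Set Filter Topology Metric MeasureTheory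
open Pool.Agent.SmoothDegree Pool.Agent.ANO.Idx

namespace Pool.Agent.ANO5.A2.EqIdx

variable {E : Type} [NormedAddCommGroup E] [NormedSpace ℝ E] [FiniteDimensional ℝ E]

private theorem hasFDerivAt_Sard {V : Set E} (hV : IsOpen V) {h : E → E}
    (hh : ContDiffOn ℝ 1 h V) {x : E} (hx : x ∈ V) : HasFDerivAt h (fderiv ℝ h x) x :=
  ((hh.contDiffAt (hV.mem_nhds hx)).differentiableAt one_ne_zero).hasFDerivAt

private theorem det_smul_Sard (c : ℝ) (A : E →L[ℝ] E) :
    (c • A).det = c ^ Module.finrank ℝ E * A.det := by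
  rw [ContinuousLinearMap.det, ContinuousLinearMap.det]
  exact LinearMap.det_smul c (A : E →ₗ[ℝ] E)

theorem exists_reg {V : Set E} (hV : IsOpen V) {h g : E → E} (hh : ContDiffOn ℝ 1 h V)
    (hg : ContDiffOn ℝ 1 g V) {χ : E → ℝ} (hχ : ContDiff ℝ 1 χ) {δ : ℝ} (hδ : 0 < δ) :
    ∃ v : E, ‖v‖ < δ ∧ ∀ x ∈ V, χ x ≠ 0 → x - (h x + χ x • (g x + v - h x)) = 0 →
      (fderiv ℝ (fun y => y - (h y + χ y • (g y + v - h y))) x).det ≠ 0 := by
  let _ : MeasurableSpace E := borel E
  have _ : BorelSpace E := ⟨rfl⟩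
  set μ : Measure E := Measure.addHaar with hμ
  set ψ : E → E := fun x => (χ x)⁻¹ • (x - h x) - (g x - h x) with hψ
  set V' : Set E := V ∩ {x | χ x ≠ 0} with hV'
  have hV'o : IsOpen V' := hV.inter (isOpen_ne_fun hχ.continuous continuous_const)
  have hψc : ContDiffOn ℝ 1 ψ V' := by
    have h1 : ContDiffOn ℝ 1 (fun x => (χ x)⁻¹) V' :=
      hχ.contDiffOn.inv fun x hx => hx.2
    have hh' := hh.mono (inter_subset_left : V' ⊆ V)
    have hg' := hg.mono (inter_subset_left : V' ⊆ V)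
    exact (h1.smul (contDiffOn_id.sub hh')).sub (hg'.sub hh')
  set s : Set E := {x | x ∈ V' ∧ (fderiv ℝ ψ x).det = 0} with hs
  have h0 : μ (ψ '' s) = 0 := by
    apply addHaar_image_eq_zero_of_det_fderivWithin_eq_zero μ (f' := fun x => fderiv ℝ ψ x)
    · intro x hx
      exact (hasFDerivAt_Sard hV'o hψc hx.1).hasFDerivWithinAt
    · intro x hx
      exact hx.2
  have hdense : Dense (ψ '' s)ᶜ := by
    apply Measure.dense_of_ae (μ := μ)
    exact measure_eq_zero_iff_ae_notMem.1 h0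
  obtain ⟨v, hv, hvs⟩ := hdense.exists_mem_open isOpen_ball ⟨0, mem_ball_self hδ⟩
  refine ⟨v, by simpa using hvs, ?_⟩
  intro x hx hx0 hF
  have hxV' : x ∈ V' := ⟨hx, hx0⟩
  have hψx : ψ x = v := by
    have h1 : χ x • (g x + v - h x) = x - h x := by
      rw [eq_sub_iff_add_eq, add_comm]
      exact (sub_eq_zero.1 hF).symm
    simp only [hψ]
    rw [← h1, smul_smul, inv_mul_cancel₀ hx0, one_smul]
    abel
  have hdet : (fderiv ℝ ψ x).det ≠ 0 := fun h => hv ⟨x, ⟨hxV', h⟩, hψx⟩
  have heq : (fun y => y - (h y + χ y • (g y + v - h y))) =ᶠ[𝓝 x]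
      fun y => χ y • (ψ y - v) := by
    filter_upwards [hV'o.mem_nhds hxV'] with y hy
    have hy0 : χ y ≠ 0 := hy.2
    simp only [hψ]
    have h1 : χ y • ((χ y)⁻¹ • (y - h y)) = y - h y := by
      rw [smul_smul, mul_inv_cancel₀ hy0, one_smul]
    rw [smul_sub (χ y) _ v, smul_sub (χ y) _ (g y - h y), h1]
    simp only [smul_sub, smul_add]
    abel
  have hder : HasFDerivAt (fun y => χ y • (ψ y - v)) (χ x • fderiv ℝ ψ x) x := by
    have h1 := (hχ.differentiable one_ne_zero x).hasFDerivAt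
    have h2 := (hasFDerivAt_Sard hV'o hψc hxV').sub_const v
    have h3 : HasFDerivAt (fun y => χ y • (ψ y - v))
        (χ x • fderiv ℝ ψ x + (fderiv ℝ χ x).smulRight (ψ x - v)) x := h1.smul h2
    have h4 : (fderiv ℝ χ x).smulRight (0 : E) = 0 := by
      ext w
      simp
    rw [hψx, sub_self, h4, add_zero] at h3
    exact h3
  rw [heq.fderiv_eq, hder.fderiv, det_smul_Sard]
  exact mul_ne_zero (pow_ne_zero _ hx0) hdet

theorem fderiv_at_zero {V : Set E} (hV : IsOpen V) {h g : E → E} (hh : ContDiffOn ℝ 1 h V)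
    (hg : ContDiffOn ℝ 1 g V) {χ : E → ℝ} (hχ : ContDiff ℝ 1 χ) (h0 : ∀ x, 0 ≤ χ x) (v : E) {x : E}
    (hx : x ∈ V) (hx0 : χ x = 0) :
    fderiv ℝ (fun y => y - (h y + χ y • (g y + v - h y))) x = fderiv ℝ (fun y => y - h y) x := by
  have hmin : IsLocalMin χ x := Filter.Eventually.of_forall fun y => by rw [hx0]; exact h0 y
  have hχ' : fderiv ℝ χ x = 0 := hmin.fderiv_eq_zero
  have h1 := (hχ.differentiable one_ne_zero x).hasFDerivAt
  have h2 := hasFDerivAt_Sard hV hh hx
  have h3 := hasFDerivAt_Sard hV hg hx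
  have h4 := (hasFDerivAt_id (𝕜 := ℝ) x).sub (h2.add (h1.smul ((h3.add_const v).sub h2)))
  have h5 := (hasFDerivAt_id (𝕜 := ℝ) x).sub h2
  refine (HasFDerivAt.fderiv (f := fun y => y - (h y + χ y • (g y + v - h y))) h4).trans ?_
  refine Eq.trans ?_ (HasFDerivAt.fderiv (f := fun y => y - h y) h5).symm
  rw [hχ', hx0]
  ext w
  simp

private theorem fderiv_small_Sard {V : Set E} (hV : IsOpen V) {h : E → E}
    (hh : ContDiffOn ℝ 1 h V) {χ : E → ℝ} (hχ : ContDiff ℝ 1 χ) (v : E) {x : E} (hx : x ∈ V) :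
    fderiv ℝ (fun y => y - (h y + χ y • v)) x =
      ContinuousLinearMap.id ℝ E - (fderiv ℝ h x + (fderiv ℝ χ x).smulRight v) := by
  have h1 := (hχ.differentiable one_ne_zero x).hasFDerivAt
  have h2 := hasFDerivAt_Sard hV hh hx
  have h4 := (hasFDerivAt_id (𝕜 := ℝ) x).sub (h2.add (h1.smul_const v))
  exact HasFDerivAt.fderiv (f := fun y => y - (h y + χ y • v)) h4

theorem exists_small_reg {V : Set E} (hV : IsOpen V) {h : E → E} (hh : ContDiffOn ℝ 1 h V)
    {χ : E → ℝ} (hχ : ContDiff ℝ 1 χ) {K : Set E} (hK : IsCompact K) (hKV : K ⊆ V)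
    (hnd : ∀ x ∈ K, x - h x = 0 → (fderiv ℝ (fun y => y - h y) x).det ≠ 0) :
    ∃ δ > 0, ∀ v : E, ‖v‖ < δ → ∀ x ∈ K, x - (h x + χ x • v) = 0 →
      (fderiv ℝ (fun y => y - (h y + χ y • v)) x).det ≠ 0 := by
  have key : ∀ᶠ v : E in 𝓝 0, ∀ x ∈ K, x - (h x + χ x • v) = 0 →
      (fderiv ℝ (fun y => y - (h y + χ y • v)) x).det ≠ 0 := by
    refine hK.eventually_forall_of_forall_eventually (P := fun v x => x - (h x + χ x • v) = 0 →
      (fderiv ℝ (fun y => y - (h y + χ y • v)) x).det ≠ 0) ?_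
    intro x hx
    have hxV := hKV hx
    have hsnd : Tendsto (fun z : E × E => z.2) (𝓝 ((0 : E), x)) (𝓝 x) :=
      continuous_snd.tendsto _
    have hfst : Tendsto (fun z : E × E => z.1) (𝓝 ((0 : E), x)) (𝓝 0) :=
      continuous_fst.tendsto _
    have hc : Tendsto (fun z : E × E => χ z.2) (𝓝 ((0 : E), x)) (𝓝 (χ x)) :=
      (hχ.continuous.tendsto x).comp hsnd
    have hhx : Tendsto (fun z : E × E => h z.2) (𝓝 ((0 : E), x)) (𝓝 (h x)) :=
      ((hh.contDiffAt (hV.mem_nhds hxV)).continuousAt.tendsto).comp hsnd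
    by_cases h0 : x - h x = 0
    · have h1 : Tendsto (fun z : E × E => ContinuousLinearMap.id ℝ E -
          (fderiv ℝ h z.2 + (fderiv ℝ χ z.2).smulRight z.1)) (𝓝 ((0 : E), x))
          (𝓝 (ContinuousLinearMap.id ℝ E - (fderiv ℝ h x + (fderiv ℝ χ x).smulRight 0))) := by
        have h2 : Tendsto (fun z : E × E => fderiv ℝ h z.2) (𝓝 ((0 : E), x))
            (𝓝 (fderiv ℝ h x)) :=
          (((hh.continuousOn_fderiv_of_isOpen hV le_rfl).continuousAt
            (hV.mem_nhds hxV)).tendsto).comp hsnd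
        have h3 : Tendsto (fun z : E × E => fderiv ℝ χ z.2) (𝓝 ((0 : E), x))
            (𝓝 (fderiv ℝ χ x)) :=
          ((hχ.continuous_fderiv one_ne_zero).tendsto x).comp hsnd
        have h4 : Tendsto (fun z : E × E => (fderiv ℝ χ z.2).smulRight z.1)
            (𝓝 ((0 : E), x)) (𝓝 ((fderiv ℝ χ x).smulRight 0)) := by
          have h5 : Continuous fun q : (E →L[ℝ] ℝ) × E =>
              (q.1.smulRight q.2 : E →L[ℝ] E) :=
            (ContinuousLinearMap.smulRightL ℝ E E).continuous₂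
          exact (h5.tendsto ((fderiv ℝ χ x), (0 : E))).comp (h3.prodMk_nhds hfst)
        exact tendsto_const_nhds.sub (h2.add h4)
      have h6 : (ContinuousLinearMap.id ℝ E -
          (fderiv ℝ h x + (fderiv ℝ χ x).smulRight (0 : E))).det ≠ 0 := by
        have h7 := hnd x hx h0
        have h8 : fderiv ℝ (fun y => y - h y) x = ContinuousLinearMap.id ℝ E -
            (fderiv ℝ h x + (fderiv ℝ χ x).smulRight (0 : E)) := by
          rw [← fderiv_small_Sard hV hh hχ 0 hxV]
          simp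
        rwa [h8] at h7
      have h9 := ((continuous_clm_det (E := E)).tendsto _).comp h1
      have h10 := h9.eventually_ne h6
      filter_upwards [h10, hsnd.eventually (hV.mem_nhds hxV)] with z hz hzV _
      rw [fderiv_small_Sard hV hh hχ z.1 hzV]
      exact hz
    · have h1 : Tendsto (fun z : E × E => z.2 - (h z.2 + χ z.2 • z.1)) (𝓝 ((0 : E), x))
          (𝓝 (x - (h x + χ x • (0 : E)))) := hsnd.sub (hhx.add (hc.smul hfst))
      rw [smul_zero, add_zero] at h1
      filter_upwards [h1.eventually_ne h0] with z hz hz0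
      exact absurd hz0 hz
  obtain ⟨δ, hδ, hball⟩ := Metric.eventually_nhds_iff.1 key
  exact ⟨δ, hδ, fun v hv x hx => hball (by simpa using hv) x hx⟩

end Pool.Agent.ANO5.A2.EqIdx
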