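import Pool.Agent.ANO5.A2.EqIdx.Inv
import Pool.Agent.ANO5.A2.EqIdx.Ext
import Pool.Agent.ANO5.A2.EqIdx.Sard
import Pool.Agent.ANO5.A2.EqIdx.Near

/-!
# Equivariant index: one step of the fragmentation (package EQ-ONE)

Replace `G` by a map `G'` which is close to `G₀` on `closedBall p ρ`, equal to `G` away from the
translates of `closedBall p ρ'`, without changing `tot`.

Proof. `closedBall p ρ'` contains finitely many fixed points of `G` (`finite_fix`), so there are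
`ρ < ρ₁ < ρ₂ < ρ'` such that no fixed point is on the sphere of radius `ρ₂`; `B = closedBall p ρ₂`,
`K = closedBall p ρ₁`. Let `χ : E → [0, 1]` be smooth, `1` near `C.toE '' closedBall p ρ` and `0`
outside `C.toE '' ball p ρ₁`. Let `g : E → E` of class `C¹` be close to `C.loc G₀` on `C.toE '' B`,
`h e = mixE (χ e, C.loc G e, g e)`, a `C¹` function near `C.toE '' B`, and
`m x = ofE (h e + χ e • v)`, `e = toE x`, with a small `v` from `exists_reg`. Then
`dist (m x) (G₀ x) ≤ dist (G x) (G₀ x) + δ` (`Chart.mix_dist`), `m x` is close to `G₀ x` if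
`x ∈ closedBall p ρ`, and `m = G` on `B \ K`. Take `G'` from `exists_extend`. The fixed points are
nondegenerate: `exists_reg` (`χ ≠ 0`) and `Chart.hasFDerivAt_mixE` (`χ = 0`).
-/

set_option autoImplicit false
set_option linter.unusedSectionVars false

open Set Filter Topology Metric
open Pool.Agent.SmoothDegree Pool.Agent.ANO.Idx

namespace Pool.Agent.ANO5.A2.EqIdx

variable {X E : Type} [MetricSpace X] [ProperSpace X] [NormedAddCommGroup E] [NormedSpace ℝ E]
  [FiniteDimensional ℝ E] [Nontrivial E]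
variable {C : Chart X E} {Z : Type} [Group Z] [MulAction Z X]

private theorem exists_radii_One {G : X → X} (hG : Eqv C Z G) (hnd : NdOn C G univ) (p : X)
    {ρ ρ' : ℝ} (hρ : ρ < ρ') :
    ∃ ρ₁ ρ₂ : ℝ, ρ < ρ₁ ∧ ρ₁ < ρ₂ ∧ ρ₂ < ρ' ∧ ∀ x, dist x p = ρ₂ → G x ≠ x := by
  have h1 : (closedBall p ρ' ∩ {q | G q = q}).Finite :=
    finite_fix hG (isCompact_closedBall p ρ') fun q _ hq => hnd q (mem_univ q) hq
  have h2 : ((fun q => dist q p) '' (closedBall p ρ' ∩ {q | G q = q})).Finite := h1.image _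
  obtain ⟨ρ₂, h3, h4⟩ := (Ioo_infinite hρ).exists_notMem_finite h2
  refine ⟨(ρ + ρ₂) / 2, ρ₂, by linarith [h3.1], by linarith [h3.1], h3.2, fun x hx hfx => h4 ?_⟩
  exact ⟨x, ⟨mem_closedBall.2 (hx.le.trans h3.2.le), hfx⟩, hx⟩

private theorem ndOn_One {G G' : X → X} {B : Set X} {h : E → E} {χ : E → ℝ} {v : E} {V : Set E}
    (hV : IsOpen V) (hBV : ∀ x ∈ B, C.toE x ∈ V) (hnd : NdOn C G univ) (hh : ContDiffOn ℝ 1 h V)
    (hχ : ContDiff ℝ 1 χ) (hχI : ∀ x, χ x ∈ Icc (0 : ℝ) 1)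
    (hh0 : ∀ x ∈ V, χ x = 0 → fderiv ℝ h x = fderiv ℝ (C.loc G) x ∧ DifferentiableAt ℝ (C.loc G) x ∧
      h x = C.loc G x)
    (hv : ∀ x ∈ V, χ x ≠ 0 → x - (h x + χ x • (h x + v - h x)) = 0 →
      (fderiv ℝ (fun y => y - (h y + χ y • (h y + v - h y))) x).det ≠ 0)
    (hloc : ∀ x ∈ B, C.toE (G' x) = h (C.toE x) + χ (C.toE x) • v) :
    NdOn C G' (interior B) := by
  intro q hq hfq
  have hB : B ∈ 𝓝 q := mem_interior_iff_mem_nhds.1 hq
  have hqB : q ∈ B := interior_subset hq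
  have h1 : ContinuousAt C.ofE (C.toE q) :=
    C.contOf.continuousAt (C.isOpen.mem_nhds (mem_range_self q))
  have h2 : ∀ᶠ y in 𝓝 (C.toE q), C.ofE y ∈ B := by
    have := h1.tendsto
    rw [C.left_inv] at this
    exact this.eventually hB
  have h3 : C.disp G' =ᶠ[𝓝 (C.toE q)]
      fun y => y - (h y + χ y • (h y + v - h y)) := by
    filter_upwards [h2, C.isOpen_dom.mem_nhds (C.mem_dom q)] with y hy hyd
    have h4 := hloc _ hy
    rw [C.toE_ofE hyd] at h4
    rw [Chart.disp, add_sub_cancel_left, ← h4]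
    rfl
  rw [h3.fderiv_eq]
  by_cases h0 : χ (C.toE q) = 0
  · rw [fderiv_at_zero hV hh hh hχ (fun x => (hχI x).1) v (hBV q hqB) h0]
    obtain ⟨e1, e2, e3⟩ := hh0 _ (hBV q hqB) h0
    have h5 : fderiv ℝ (fun y => y - h y) (C.toE q) = fderiv ℝ (C.disp G) (C.toE q) := by
      have h6 := (hasFDerivAt_id (𝕜 := ℝ) (C.toE q)).sub
        ((hh.contDiffAt (hV.mem_nhds (hBV q hqB))).differentiableAt one_ne_zero).hasFDerivAt
      have h7 := (hasFDerivAt_id (𝕜 := ℝ) (C.toE q)).sub e2.hasFDerivAt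
      rw [e1] at h6
      exact (HasFDerivAt.fderiv (f := fun y => y - h y) h6).trans
        (HasFDerivAt.fderiv (f := C.disp G) h7).symm
    rw [h5]
    refine hnd q (mem_univ q) ?_
    have h4 := hloc q hqB
    rw [h0, zero_smul, add_zero, hfq, e3, C.loc_toE] at h4
    exact (C.injective h4).symm
  · refine hv _ (hBV q hqB) h0 ?_
    rw [add_sub_cancel_left, ← hloc q hqB, hfq, sub_self]

theorem exists_step (hZ : Action C Z) {G G₀ : X → X} (hG : Eqv C Z G) (hnd : NdOn C G univ)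
    (hG₀ : Continuous G₀) (he : ∀ (z : Z) (x : X), G₀ (z • x) = z • G₀ x) {c : ℝ}
    (hc : ∀ x, dist (G x) (G₀ x) ≤ c) {L : Set X} (hL : IsCompact L)
    (hLc : ∀ x, dist x (G₀ x) ≤ c + 1 → x ∈ sat Z L) (p : X) {ρ ρ' : ℝ} (hρ0 : 0 < ρ) (hρ : ρ < ρ')
    (hs : Small Z (closedBall p ρ')) {δ : ℝ} (hδ : 0 < δ) (hδ1 : δ ≤ 1) :
    ∃ G' : X → X, Eqv C Z G' ∧ NdOn C G' univ ∧
      (∀ x, dist (G' x) (G₀ x) ≤ dist (G x) (G₀ x) + δ) ∧
      (∀ x ∈ closedBall p ρ, dist (G' x) (G₀ x) ≤ δ) ∧ tot C Z G' = tot C Z G := by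
  obtain ⟨ρ₁, ρ₂, hρ1, hρ2, hρ3, hsph⟩ := exists_radii_One hG hnd p hρ
  have hB : IsCompact (closedBall p ρ₂) := isCompact_closedBall p ρ₂
  have hK : IsCompact (closedBall p ρ₁) := isCompact_closedBall p ρ₁
  have hKB : closedBall p ρ₁ ⊆ interior (closedBall p ρ₂) :=
    (closedBall_subset_ball hρ2).trans ball_subset_interior_closedBall
  have hKB' : closedBall p ρ₁ ⊆ closedBall p ρ₂ := hKB.trans interior_subset
  have hsB : Small Z (closedBall p ρ₂) := hs.mono (closedBall_subset_closedBall hρ3.le)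
  -- the cutoff
  obtain ⟨χ, hχ, hχ1, hχ0, hχI⟩ := exists_cutoff (E := E)
    (Z := C.toE '' closedBall p ρ) (t := C.toE '' ball p ρ₁)
    (((isCompact_closedBall p ρ).image C.cont).isClosed) (by
      rw [C.interior_image, isOpen_ball.interior_eq]
      exact image_mono (closedBall_subset_ball hρ1))
  have hχ' : ContDiff ℝ 1 χ := hχ.of_le (by exact_mod_cast le_top)
  have hχ1' : ∀ x ∈ closedBall p ρ, χ (C.toE x) = 1 := fun x hx =>
    (eventually_nhdsSet_iff_forall.1 hχ1 _ (mem_image_of_mem _ hx)).self_of_nhds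
  have hχ0' : ∀ x, x ∉ closedBall p ρ₁ → χ (C.toE x) = 0 := by
    intro x hx
    apply hχ0
    rintro ⟨y, hy, hyx⟩
    rw [C.injective hyx] at hy
    exact hx (ball_subset_closedBall hy)
  -- the approximation
  obtain ⟨ε, hε, hnear⟩ := near_ofE C (hB.image hG₀) (show (0 : ℝ) < δ / 4 by positivity)
  obtain ⟨g, hg, hgε⟩ := exists_approx C.isOpen_dom (C.continuousOn_loc hG₀)
    (hB.image C.cont) (by rintro _ ⟨q, -, rfl⟩; exact C.mem_dom q) hε
  have hb : ∀ x ∈ closedBall p ρ₂, g (C.toE x) ∈ C.dom ∧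
      dist (C.ofE (g (C.toE x))) (G₀ x) < δ / 4 := by
    intro x hx
    refine hnear (G₀ x) (mem_image_of_mem _ hx) _ ?_
    have h1 := hgε _ (mem_image_of_mem C.toE hx)
    rwa [C.loc_toE] at h1
  -- the interpolation
  set V : Set E := C.dom ∩ g ⁻¹' C.dom with hV
  have hVo : IsOpen V := C.isOpen_dom.inter (C.isOpen_dom.preimage hg.continuous)
  have hBV : ∀ x ∈ closedBall p ρ₂, C.toE x ∈ V := fun x hx => ⟨C.mem_dom x, (hb x hx).1⟩
  set h : E → E := fun e => C.mixE (χ e, C.loc G e, g e) with hh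
  have hVm : ∀ e ∈ V, (χ e, C.loc G e, g e) ∈ C.mixDom := fun e he =>
    C.mem_mixDom _ (hχI e) _ (C.loc_mem_dom G e) _ he.2
  have hhC : ContDiffOn ℝ 1 h V :=
    C.contDiffOn_mixE.comp (s := V) (f := fun e => (χ e, C.loc G e, g e))
      (hχ'.contDiffOn.prodMk ((hG.smooth.mono inter_subset_left).prodMk hg.contDiffOn)) hVm
  have hhx : ∀ x ∈ closedBall p ρ₂, h (C.toE x) =
      C.toE (C.mix (χ (C.toE x)) (G x) (C.ofE (g (C.toE x)))) := by
    intro x hx
    have h1 : g (C.toE x) = C.toE (C.ofE (g (C.toE x))) := (C.toE_ofE (hb x hx).1).symm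
    show C.mixE (χ (C.toE x), C.loc G (C.toE x), g (C.toE x)) = _
    rw [C.loc_toE]
    conv_lhs => rw [h1]
    rw [C.mixE_toE]
  have hmdom : ∀ x ∈ closedBall p ρ₂, h (C.toE x) ∈ C.dom := fun x hx => by
    rw [hhx x hx]
    exact C.mem_dom _
  have hK2 : IsCompact ((fun x => C.ofE (h (C.toE x))) '' closedBall p ρ₂) := by
    refine hB.image_of_continuousOn ?_
    refine C.contOf.comp (hhC.continuousOn.comp C.cont.continuousOn hBV) ?_
    intro x hx
    exact hmdom x hx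
  obtain ⟨ε₂, hε₂, hnear₂⟩ := near_ofE C hK2 (show (0 : ℝ) < δ / 4 by positivity)
  obtain ⟨v, hvε, hv⟩ := exists_reg hVo hhC hhC hχ' hε₂
  have hm₂ : ∀ x ∈ closedBall p ρ₂, h (C.toE x) + χ (C.toE x) • v ∈ C.dom ∧
      dist (C.ofE (h (C.toE x) + χ (C.toE x) • v)) (C.ofE (h (C.toE x))) < δ / 4 := by
    intro x hx
    refine hnear₂ _ (mem_image_of_mem _ hx) _ ?_
    show ‖h (C.toE x) + χ (C.toE x) • v - C.toE (C.ofE (h (C.toE x)))‖ < ε₂
    rw [C.toE_ofE (hmdom x hx), add_sub_cancel_left, norm_smul, Real.norm_eq_abs,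
      abs_of_nonneg (hχI _).1]
    calc χ (C.toE x) * ‖v‖ ≤ 1 * ‖v‖ :=
          mul_le_mul_of_nonneg_right (hχI _).2 (norm_nonneg v)
      _ < ε₂ := by rw [one_mul]; exact hvε
  -- the local modification
  obtain ⟨m, hmdef⟩ : ∃ m : X → X, ∀ x, m x = C.ofE (h (C.toE x) + χ (C.toE x) • v) :=
    ⟨_, fun _ => rfl⟩
  have hmE : ∀ x ∈ closedBall p ρ₂, C.toE (m x) = h (C.toE x) + χ (C.toE x) • v := by
    intro x hx
    rw [hmdef]
    exact C.toE_ofE (hm₂ x hx).1
  have hmG : ∀ x ∈ closedBall p ρ₂, x ∉ closedBall p ρ₁ → m x = G x := by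
    intro x hx2 hx
    rw [hmdef, hhx x hx2, hχ0' x hx, zero_smul, add_zero, C.mix_zero, C.left_inv]
  have hmm : ∀ x ∈ closedBall p ρ₂,
      dist (m x) (C.mix (χ (C.toE x)) (G x) (C.ofE (g (C.toE x)))) < δ / 4 := by
    intro x hx
    have h1 := (hm₂ x hx).2
    rw [← hmdef, hhx x hx, C.left_inv] at h1
    exact h1
  have hmd : ∀ x ∈ closedBall p ρ₂, dist (m x) (G₀ x) ≤ dist (G x) (G₀ x) + δ := by
    intro x hx
    obtain ⟨-, h2⟩ := hb x hx
    have h1 := hmm x hx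
    have h3 := C.mix_dist _ (hχI (C.toE x)) (G x) (C.ofE (g (C.toE x)))
    have h4 := dist_triangle (m x) (C.mix (χ (C.toE x)) (G x) (C.ofE (g (C.toE x)))) (G₀ x)
    have h5 := dist_triangle (C.mix (χ (C.toE x)) (G x) (C.ofE (g (C.toE x))))
      (C.ofE (g (C.toE x))) (G₀ x)
    have h6 := dist_triangle (G x) (G₀ x) (C.ofE (g (C.toE x)))
    rw [dist_comm (G₀ x)] at h6
    linarith
  have hmρ : ∀ x ∈ closedBall p ρ, dist (m x) (G₀ x) ≤ δ := by
    intro x hx
    have hx2 : x ∈ closedBall p ρ₂ := closedBall_subset_closedBall (hρ1.trans hρ2).le hx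
    have h1 := (hb x hx2).2
    have h2 := hmm x hx2
    rw [hχ1' x hx, C.mix_one] at h2
    have h3 := dist_triangle (m x) (C.ofE (g (C.toE x))) (G₀ x)
    linarith
  have hmC : ContDiffOn ℝ 1 (C.loc m) (C.toE '' interior (closedBall p ρ₂)) := by
    have h1 : ContDiffOn ℝ 1 (fun y => h y + χ y • v) V :=
      hhC.add (hχ'.contDiffOn.smul contDiffOn_const)
    refine (h1.mono ?_).congr ?_
    · rintro _ ⟨q, hq, rfl⟩
      exact hBV q (interior_subset hq)
    · rintro _ ⟨q, hq, rfl⟩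
      rw [C.loc_toE m q]
      exact hmE q (interior_subset hq)
  have hh0 : ∀ x ∈ V, χ x = 0 → fderiv ℝ h x = fderiv ℝ (C.loc G) x ∧
      DifferentiableAt ℝ (C.loc G) x ∧ h x = C.loc G x := by
    intro x hx hx0
    have h1 : DifferentiableAt ℝ (C.loc G) x :=
      (hG.smooth.contDiffAt (C.isOpen_dom.mem_nhds hx.1)).differentiableAt one_ne_zero
    have h2 : DifferentiableAt ℝ g x := hg.contDiffAt.differentiableAt one_ne_zero
    have hmin : IsLocalMin χ x := Filter.Eventually.of_forall fun y => by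
      rw [hx0]; exact (hχI y).1
    have h3 : HasFDerivAt χ (0 : E →L[ℝ] ℝ) x := by
      have h4 := (hχ'.differentiable one_ne_zero x).hasFDerivAt
      rwa [hmin.fderiv_eq_zero] at h4
    refine ⟨?_, h1, ?_⟩
    · exact (C.hasFDerivAt_mixE h1.hasFDerivAt h2.hasFDerivAt h3 hx0 (C.loc_mem_dom G x)
        hx.2).fderiv
    · show C.mixE (χ x, C.loc G x, g x) = _
      rw [hx0]
      exact C.mixE_zero _ (C.loc_mem_dom G x)
  obtain ⟨G', hG', hG'm, hG'G⟩ := exists_extend hZ hG hsB hK hKB hmC hmG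
  have hdist : ∀ x, dist (G' x) (G₀ x) ≤ dist (G x) (G₀ x) + δ := by
    intro x
    by_cases hx : x ∈ sat Z (closedBall p ρ₁)
    · obtain ⟨z, hz⟩ := hx
      have h1 := hmd (z • x) (hKB' hz)
      rw [← hG'm _ (hKB' hz), hG'.equi, hG.equi, he, hZ.dist_smul, hZ.dist_smul] at h1
      exact h1
    · rw [hG'G x hx]
      linarith
  have hnd' : NdOn C G' univ := by
    intro q _ hfq
    by_cases hq : q ∈ sat Z (interior (closedBall p ρ₂))
    · refine NdOn.sat hZ hG' (ndOn_One hVo hBV hnd hhC hχ' hχI hh0 hv ?_) q hq hfq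
      intro x hx
      rw [hG'm x hx]
      exact hmE x hx
    · have hq' : q ∉ sat Z (closedBall p ρ₁) := fun h => hq (sat_mono hKB h)
      have h1 : G' =ᶠ[𝓝 q] G := by
        filter_upwards [(hZ.isClosed_sat hK).isOpen_compl.mem_nhds hq'] with y hy
        exact hG'G y hy
      rw [(C.disp_congr h1).fderiv_eq]
      refine hnd q (mem_univ q) ?_
      rw [← hG'G q hq', hfq]
  refine ⟨G', hG', hnd', hdist, ?_, ?_⟩
  · intro x hx
    rw [hG'm x (closedBall_subset_closedBall (hρ1.trans hρ2).le hx)]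
    exact hmρ x hx
  · refine tot_eq_of_modify hZ hG hG' hnd hnd' hB hsB hK hKB hG'G ?_ hL ?_ ?_
    · intro x hx
      exact hsph x (frontier_closedBall_subset_sphere hx)
    · intro q hq
      refine hLc q ?_
      have h1 := hc q
      rw [hq] at h1
      linarith
    · intro q hq
      refine hLc q ?_
      have h1 := hdist q
      have h2 := hc q
      rw [hq] at h1
      linarith

end Pool.Agent.ANO5.A2.EqIdx
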